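import Pool.Agent.J6H75.BT.Fg

/-!
# Linear groups of degree two over rings with one place at infinity and the Farrell-Jones conjecture

`C` is any class of groups with the closure properties `ClosedE C` which contains the solvable groups.
All this is known for the class of the groups that satisfy the Farrell-Jones conjecture with
coefficients in additive categories and finite wreath products; this class also contains all `GL_m(K)`
if the field `K` is algebraic over `ℚ` or over a field `𝔽_p(t)` (Rüping).

(1) Let `D` be a division ring, not necessarily commutative, with a discrete valuation, and let `Γ` act on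
`D` by ring automorphisms that preserve the valuation. Let `ρ` be a homomorphism from a group `G` to the
group `GL₂(D) ⋊ Γ` of semilinear transformations, such that the matrix of `ρ(g)` has for each `g` a nonzero
entry of valuation at most `0`. Suppose that for each `n` there is a homomorphism from `G` to a group in
`C` which kills no `g ≠ 1` for which the entries of `ρ(g)` have valuations at least `-n`. Then `G` is in `C`.

(2) Let `A` be a commutative domain with a degree function: `deg (a b) = deg a + deg b` and
`deg (a + b) ≤ max (deg a) (deg b)`. If `GL₂(A / a A)` is in `C` for one element `a` of positive degree, then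
`GL₂(A)` is in `C`. The same is true if for each `n` there is an ideal `J` without nonzero elements of degree
at most `n` such that `GL₂(A / J)` is in `C`.

(3) Let `A` be a commutative graded domain with components of degrees `0, 1, 2, ...` and let `Γ` act on `A`
by graded ring automorphisms. If `GL₂(A_0) ⋊ Γ` is in `C` then `GL₂(A) ⋊ Γ` is in `C`.

(4) If `R` is a commutative domain and `GL₂(R)` is in `C`, then so is `GL₂` of the polynomial ring over `R` in
any finite or infinite number of variables.

(5) Let all `GL_m(K)`, `K` a field, be in `C`, and let `A` be a finitely generated commutative `K`-algebra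
without zero divisors and with a degree function such that the elements of bounded degree lie in
finite-dimensional subspaces. Then `GL₂(A)` is in `C`. (Examples are the rings of regular functions on
`X ∖ E` for normal projective varieties `X` over `K` and prime divisors `E` such that `X ∖ E` is affine; the
degree is the order of the pole along `E`.)

So the Farrell-Jones conjecture holds for all subgroups of `GL₂(ℤ[x_1, ..., x_n])` and of `GL₂(K[x_1, x_2, ...])`,
`K` algebraic over `ℚ` or `𝔽_p(t)`, of `GL₂` of homogeneous coordinate rings and of rings of invariants over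
such fields `K`, and so on. Before it was known for linear groups over the fields `K` themselves. There
are no finiteness conditions and the groups contain, for example, restricted wreath products `ℤ ≀ ℤ^n`
and nonabelian free groups, and need not act cocompactly or with finite stabilizers on anything.

Outline of the proof. `G` acts on the Bruhat-Tits tree of `GL₂(D)`, the vertices of which are the cosets of the
group generated by `GL₂` of the valuation ring and a uniformizer. The tree is constructed here from the
Iwasawa decomposition: the end `∞` gives every vertex a parent. By the condition on the entries the powers of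
an element which fixes a vertex stay bounded, and the stabilizer of a vertex is a bounded set. So by the
hypothesis there are homomorphisms to groups in `C` which are injective on the stabilizers, and one applies the
theorem on groups acting on trees (`N24.TR`). For a domain with a degree function one takes the field of
fractions with the valuation `- deg`. The kernels of `GL₂(A / a^n A) → GL₂(A / a A)` and of
`GL₂(A / A_{> n}) → GL₂(A_0)` are solvable. In (5) one takes the powers of a maximal ideal and Krull's
intersection theorem.
-/

set_option autoImplicit false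

namespace Pool.Agent.Results.MP_5d3e93_al.DegreeTwoLinearGroups

open Pool.Agent.Y110.FJ (ClosedE)
open Pool.Agent.J6H75.BT (DV IsDegree GL2 glAut GaL)

/-- The group `GL₂(A) ⋊ Γ` of semilinear transformations, where `Γ` acts on the ring `A` by `s`; its
elements are pairs `(g, γ)` with the product `(g, γ) (g', γ') = (g · s(γ)(g'), γ γ')`. -/
def SemiL {A Γ : Type} [Ring A] [Group Γ] (s : Γ →* (A ≃+* A)) : Type :=
  GL2 A ⋊[(glAut A).comp s] Γ

instance {A Γ : Type} [Ring A] [Group Γ] (s : Γ →* (A ≃+* A)) : Group (SemiL s) :=
  inferInstanceAs (Group (GL2 A ⋊[(glAut A).comp s] Γ))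

/-- the matrix `g` of the semilinear transformation `(g, γ)` -/
def SemiL.mat {A Γ : Type} [Ring A] [Group Γ] {s : Γ →* (A ≃+* A)} (x : SemiL s) :
    Matrix (Fin 2) (Fin 2) A := (SemidirectProduct.left x).val

/-- the action of `Γ` on `A` -/
def act {A Γ : Type} [Ring A] [Group Γ] (s : Γ →* (A ≃+* A)) (γ : Γ) (a : A) : A := s γ a

/-- the entries have valuations at least `-n` (or are zero) -/
def Bounded {D : Type} [DivisionRing D] (V : DV D) (n : ℕ) (M : Matrix (Fin 2) (Fin 2) D) : Prop :=
  ∀ i j, M i j = 0 ∨ -(n : ℤ) ≤ V.v (M i j)

/-- some nonzero entry has valuation at most zero -/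
def NotSmall {D : Type} [DivisionRing D] (V : DV D) (M : Matrix (Fin 2) (Fin 2) D) : Prop :=
  ∃ i j, M i j ≠ 0 ∧ V.v (M i j) ≤ 0

/-- (1) groups of semilinear transformations over a division ring with a discrete valuation -/
def SemilinearGroups (C : ∀ (G : Type) [Group G], Prop) : Prop :=
  ∀ (D Γ G : Type) [DivisionRing D] [Group Γ] [Group G] (V : DV D) (s : Γ →* (D ≃+* D))
    (ρ : G →* SemiL s), (∀ γ x, V.v (act s γ x) = V.v x) → (∀ g, NotSmall V (ρ g).mat) →
    (∀ n : ℕ, ∃ (P : Type) (_ : Group P) (f : G →* P), C P ∧ ∀ g, f g = 1 →
      Bounded V n (ρ g).mat → g = 1) → C G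

/-- (2) commutative domains with a degree function -/
def DegreeDomains (C : ∀ (G : Type) [Group G], Prop) : Prop :=
  ∀ (A : Type) [CommRing A] [IsDomain A] (deg : A → ℕ), IsDegree deg →
    ((∃ a : A, 0 < deg a ∧ C (GL (Fin 2) (A ⧸ Ideal.span {a}))) ∨
      (∀ n : ℕ, ∃ J : Ideal A, (∀ a ∈ J, a ≠ 0 → n < deg a) ∧ C (GL (Fin 2) (A ⧸ J)))) →
    C (GL (Fin 2) A)

/-- (3) graded domains; `R` is the ring `A_0` -/
def GradedDomains (C : ∀ (G : Type) [Group G], Prop) : Prop :=
  ∀ (A R Γ : Type) [CommRing A] [CommRing R] [IsDomain A] [Group Γ] (𝒜 : ℕ → AddSubgroup A)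
    [GradedRing 𝒜] (i : R →+* A) (s : Γ →* (A ≃+* A)) (s0 : Γ →* (R ≃+* R)),
    Function.Injective i → (∀ a, a ∈ 𝒜 0 ↔ ∃ r, i r = a) → (∀ γ n, ∀ a ∈ 𝒜 n, act s γ a ∈ 𝒜 n) →
    (∀ γ r, i (act s0 γ r) = act s γ (i r)) → C (SemiL s0) → C (SemiL s)

/-- (4) polynomial rings -/
def PolynomialRings (C : ∀ (G : Type) [Group G], Prop) : Prop :=
  ∀ (R σ : Type) [CommRing R] [IsDomain R], C (GL (Fin 2) R) → C (GL (Fin 2) (MvPolynomial σ R))

/-- (5) finitely generated algebras -/
def FinitelyGeneratedAlgebras (C : ∀ (G : Type) [Group G], Prop) : Prop :=
  ∀ (K A : Type) [Field K] [CommRing A] [IsDomain A] [Algebra K A] [Algebra.FiniteType K A]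
    (deg : A → ℕ), (∀ n : ℕ, C (GL (Fin n) K)) → IsDegree deg →
    (∀ n : ℕ, ∃ W : Submodule K A, FiniteDimensional K W ∧ ∀ a, deg a ≤ n → a ∈ W) →
    C (GL (Fin 2) A)

/-- **Linear groups of degree two over rings with one place at infinity.** -/
theorem result (C : ∀ (G : Type) [Group G], Prop) (hC : ClosedE C)
    (hsol : ∀ (S : Type) [Group S], Group.IsSolvable S → C S) :
    SemilinearGroups C ∧ DegreeDomains C ∧ GradedDomains C ∧ PolynomialRings C ∧
      FinitelyGeneratedAlgebras C := by
  refine ⟨?_, ?_, ?_, ?_, ?_⟩
  · intro D Γ G _ _ _ V s ρ hs h0 hd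
    exact Pool.Agent.J6H75.BT.criterion hC V _ (Pool.Agent.J6H75.BT.pres_of hs) ρ h0 hd
  · rintro A _ _ deg hdeg (⟨a, ha, h⟩ | h)
    · exact Pool.Agent.J6H75.BT.one_elem hC hsol hdeg a ha h
    · exact Pool.Agent.J6H75.BT.quotients hC hdeg h
  · intro A R Γ _ _ _ _ 𝒜 _ i s s0 hi hr h1 h2 h3
    exact Pool.Agent.J6H75.BT.graded' 𝒜 hC hsol h1 i hi hr s0 h2 h3
  · intro R σ _ _ h
    exact Pool.Agent.J6H75.BT.poly hC hsol R σ h
  · intro K A _ _ _ _ _ deg hK hdeg hfin
    exact Pool.Agent.J6H75.BT.fg_alg hC K A hK hdeg hfin

end Pool.Agent.Results.MP_5d3e93_al.DegreeTwoLinearGroups
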