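import Pool.Agent.J6H6.NT.Mon
import Pool.Agent.J6H6.NT.Ore

/-!
# Linear groups of degree two over noncommutative rings and the Farrell-Jones conjecture

`C` is any class of groups with the closure properties `ClosedE C` which contains the solvable groups.
All this is known for the class of the groups that satisfy the Farrell-Jones conjecture with
coefficients in additive categories and finite wreath products; this class also contains all `GL_m(K)`
if the field `K` is algebraic over `ℚ` or over a field `𝔽_p(t)` (Rüping). `GL2 A` is the group of the
invertible `2 × 2` matrices over the ring `A`, which need not be commutative.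

(1) Let `A` be a subring of the polynomial ring `E[T]` (with a central variable `T`) over a division ring
`E`, and let `B` be the ring of the constant terms `p(0)`, `p ∈ A`. If `GL2 B` is in `C` then `GL2 A` is in `C`.
Hence `GL2 E[T]` is in `C` if and only if `GL2 E` is.

(2) Let `A = A_0 ⊕ A_1 ⊕ A_2 ⊕ ...` be a graded ring which can be embedded in a division ring. If
`GL2 A_0` is in `C` then `GL2 A` is in `C`. (Examples: skew polynomial rings `E[T; σ]` over division rings,
the enveloping algebras of positively graded Lie algebras and the algebras of the positive braid monoids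
over a field of characteristic zero; their embeddings in division rings, by Cohn and by Linnell and
Schick, are not formalized here.)

(3) Let `M` be a monoid which embeds in a residually poly-(torsion-free abelian) group, for instance in a
free group, a right-angled Artin group or a torsion-free nilpotent group, `χ : M → ℕ` a homomorphism, `M_0`
its kernel and `R` a commutative domain. If `GL2 R[M_0]` is in `C` then `GL2 R[M]` is in `C`.

(4) If `R` is a commutative domain and `GL2 R` is in `C`, then so is `GL2` of the free associative
algebra over `R` on any set.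

(5) Let `A` be a left Ore domain with a degree function: `deg (a b) = deg a + deg b` and
`deg (a + b) ≤ max (deg a) (deg b)`. If for each `n` there is a homomorphism from `A` to a ring `B` with
`GL2 B` in `C` which kills no nonzero element of degree at most `n`, then `GL2 A` is in `C`.

(6) Let all `GL_m(K)`, `K` a field, be in `C`, and let `A` be a residually finite-dimensional `K`-algebra and a
left Ore domain with a degree function such that the elements of bounded degree lie in
finite-dimensional subspaces. Then `GL2 A` is in `C`. (Examples are the enveloping algebras of all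
finite-dimensional Lie algebras in characteristic zero, by theorems of Poincaré-Birkhoff-Witt and
Harish-Chandra, which are not formalized here.)

So the Farrell-Jones conjecture holds for all subgroups of `GL2 (ℤ⟨x_1, x_2, ...⟩)` and `GL2 (K⟨x_1, x_2, ...⟩)`,
`K` algebraic over `ℚ` or `𝔽_p(t)`, of `GL2 (H[T])` for the division rings `H` of finite dimension over `K`,
and of `GL2 (U(L))` for finite-dimensional Lie algebras `L` over fields `K` algebraic over `ℚ`. These
groups are in general not linear over any field and satisfy no finiteness conditions. The commutative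
case is `MP_5d3e93_al.DegreeTwoLinearGroups`.

Outline of the proof. The criterion for groups of matrices over division rings with a discrete
valuation in `J6H75/BT` is applied to the division ring of fractions of `E[T, 1/T]` with minus the degree
as valuation, and, in (5), to the division ring of fractions of `A`, whose value group is first
normalized. The congruence subgroups of `GL2 A` modulo `A ∩ T^(n+1) E[T]` have abelian successive
quotients. In (2) `a_0 + a_1 + ...` is mapped to `a_0 + a_1 T + ...`. In (3) the group algebra of the
ambient group over the field of fractions of `R` is embedded in a division ring, the residue ring of an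
ultraproduct of the division rings of fractions of the algebras of poly-(torsion-free abelian) quotients.
-/

set_option autoImplicit false

namespace Pool.Agent.Results.MP_5d3e93_al.NoncommutativeDegreeTwo

open Pool.Agent.Y110.FJ (ClosedE)
open Pool.Agent.J6H6.RP (ResP)

/-- The group of the invertible `2 × 2` matrices over a ring. -/
abbrev GL2 (A : Type) [Ring A] : Type := (Matrix (Fin 2) (Fin 2) A)ˣ

/-- (1) subrings of polynomial rings over division rings; `B` is the ring of the constant terms -/
def PolynomialSubrings (C : ∀ (G : Type) [Group G], Prop) : Prop :=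
  ∀ (A B E : Type) [Ring A] [Ring B] [DivisionRing E] (θ : A →+* Polynomial E) (π : A →+* B),
    Function.Injective θ → (∀ a, π a = 0 ↔ (θ a).coeff 0 = 0) → C (GL2 B) → C (GL2 A)

/-- (2) graded rings which embed in division rings -/
def GradedRings (C : ∀ (G : Type) [Group G], Prop) : Prop :=
  ∀ (A E : Type) [Ring A] [DivisionRing E] (𝒜 : ℕ → AddSubgroup A) [GradedRing 𝒜] (j : A →+* E),
    Function.Injective j → C (GL2 (𝒜 0)) → C (GL2 A)

/-- (3) monoid algebras -/
def MonoidAlgebras (C : ∀ (G : Type) [Group G], Prop) : Prop :=
  ∀ (R M G : Type) [CommRing R] [IsDomain R] [Monoid M] [Group G] (i : M →* G)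
    (χ : M →* Multiplicative ℕ), ResP G → Function.Injective i →
    C (GL2 (MonoidAlgebra R (MonoidHom.mker χ))) → C (GL2 (MonoidAlgebra R M))

/-- (4) free associative algebras -/
def FreeAlgebras (C : ∀ (G : Type) [Group G], Prop) : Prop :=
  ∀ (R X : Type) [CommRing R] [IsDomain R], C (GL2 R) → C (GL2 (FreeAlgebra R X))

/-- a degree function -/
structure IsDegree {A : Type} [Ring A] (deg : A → ℕ) : Prop where
  mul : ∀ a b : A, a ≠ 0 → b ≠ 0 → deg (a * b) = deg a + deg b
  add : ∀ a b : A, a ≠ 0 → b ≠ 0 → a + b ≠ 0 → deg (a + b) ≤ max (deg a) (deg b)

/-- the left Ore condition -/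
def LeftOre (A : Type) [Ring A] : Prop :=
  ∀ a b : A, b ≠ 0 → ∃ a' b' : A, b' ≠ 0 ∧ b' * a = a' * b

/-- (5) Ore domains with a degree function -/
def OreDomains (C : ∀ (G : Type) [Group G], Prop) : Prop :=
  ∀ (A : Type) [Ring A] [IsDomain A] (deg : A → ℕ), LeftOre A → IsDegree deg →
    (∀ n : ℕ, ∃ (B : Type) (_ : Ring B) (f : A →+* B), C (GL2 B) ∧
      ∀ a, a ≠ 0 → deg a ≤ n → f a ≠ 0) → C (GL2 A)

/-- each nonzero element survives in some finite-dimensional quotient -/
def ResiduallyFinDim (K A : Type) [Field K] [Ring A] [Algebra K A] : Prop :=
  ∀ a : A, a ≠ 0 → ∃ (B : Type) (_ : Ring B) (_ : Algebra K B) (f : A →ₐ[K] B),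
    FiniteDimensional K B ∧ f a ≠ 0

/-- (6) filtered algebras -/
def FilteredAlgebras (C : ∀ (G : Type) [Group G], Prop) : Prop :=
  ∀ (K A : Type) [Field K] [Ring A] [IsDomain A] [Algebra K A] (deg : A → ℕ),
    (∀ m : ℕ, C (GL (Fin m) K)) → LeftOre A → IsDegree deg →
    (∀ n : ℕ, ∃ W : Submodule K A, FiniteDimensional K W ∧ ∀ a, deg a ≤ n → a ∈ W) →
    ResiduallyFinDim K A → C (GL2 A)

/-- **Linear groups of degree two over noncommutative rings.** -/
theorem result (C : ∀ (G : Type) [Group G], Prop) (hC : ClosedE C)
    (hsol : ∀ (S : Type) [Group S], Group.IsSolvable S → C S) :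
    PolynomialSubrings C ∧ GradedRings C ∧ MonoidAlgebras C ∧ FreeAlgebras C ∧ OreDomains C ∧
      FilteredAlgebras C := by
  refine ⟨?_, ?_, ?_, ?_, ?_, ?_⟩
  · intro A B E _ _ _ θ π hθ hπ h
    exact Pool.Agent.J6H6.NT.poly_crit θ hC hsol hθ π hπ h
  · intro A E _ _ 𝒜 _ j hj h
    exact Pool.Agent.J6H6.NT.graded_crit hC hsol 𝒜 j hj h
  · intro R M G _ _ _ _ i χ hG hi h
    exact Pool.Agent.J6H6.NT.monoid_resP hC hsol R hG i hi χ h
  · intro R X _ _ h
    exact Pool.Agent.J6H6.NT.free_alg hC hsol R X h
  · intro A _ _ deg hA hd h
    exact Pool.Agent.J6H6.NT.ore_crit hC hA hd.mul hd.add h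
  · intro K A _ _ _ _ deg hK hA hd hW hr
    exact Pool.Agent.J6H6.NT.filt_crit hC K A hK hA hd.mul hd.add hW hr

end Pool.Agent.Results.MP_5d3e93_al.NoncommutativeDegreeTwo
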