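import Pool.Agent.J6H47.TP.Cri

/-!
# Automorphism groups of polynomial rings in two variables and the Farrell-Jones conjecture

`C` is any class of groups with the closure properties `ClosedE C` which contains the metabelian groups
and satisfies `AcylF C`: a finitely generated group that acts on a tree without inversions, such that
for some `k` and `n` the pointwise stabilizers of the paths of length at least `k` have at most `n`
elements, is in `C` if the vertex stabilizers are in `C`. All this is known for the class of the groups
that satisfy the Farrell-Jones conjecture with coefficients in additive categories and finite wreath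
products (`AcylF` is a theorem of Knopf); this class also contains all `GL_m(K)` if the field `K` is
algebraic over `ℚ` (Rüping).

For a commutative ring `R` let `Aut2 R` be the group of the `R`-algebra automorphisms of the polynomial
ring `R[x, y]`. It contains the affine automorphisms and the elementary automorphisms
`x ↦ x + p(y)`, `y ↦ y`; the group generated by them is the group `tame R` of the tame automorphisms. For a
domain `A` with the field of fractions `F` let `tameOver A` be the group of the automorphisms of `A[x, y]` which
become tame in `F[x, y]`. By the theorem of Jung and van der Kulk, which is not proved here, `tame F` is the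
whole group `Aut2 F` for fields `F`, and so `tameOver A` is the whole group `Aut2 A`. It is usually not
generated by affine and elementary automorphisms; for instance for `A = K[z]` it contains the automorphism
of Nagata. All rings are domains of characteristic zero.

(1) Let `G` be any group of tame automorphisms of `R[x, y]`. If all subgroups of `G` which are conjugate, by a
tame automorphism, to groups of affine automorphisms are in `C`, then `G` is in `C`.

(2) The group `tame R` is in `C` if and only if `GL₂(R)` is in `C`.

(3) Let `A` be a domain such that for each `f ≠ 0` in `A` each group of matrices in `GL₂(F)` with entries in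
`f⁻¹ A` is in `C` (these are the groups which preserve an `A`-lattice in `F²`). Then `tameOver A` is in `C`.

(4) If `A` is a principal ideal domain, then `tameOver A` is in `C` if and only if `GL₂(A)` is in `C`.

(5) Let all `GL_m(K)`, `K` a field, be in `C`, and let `A` be a finitely generated commutative `K`-algebra
without zero divisors and with a degree function such that the elements of bounded degree lie in
finite-dimensional subspaces, for example the ring of regular functions on `X ∖ E` for a normal projective
variety `X` over `K` and a prime divisor `E` such that `X ∖ E` is affine. Then `tameOver A` is in `C`.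

(6) If all `GL_m(K)`, `K` a field, are in `C`, then `tameOver K[z_1, ..., z_n]` is in `C`.

(7) `tame A ≤ tameOver A`, and if all automorphisms of `F[x, y]` are tame then `tameOver A = Aut2 A`; so in
(3)-(6) the group `Aut2 A` is in `C` by the theorem of Jung and van der Kulk.

So the Farrell-Jones conjecture holds for the group of all automorphisms of the affine plane over each
field which is algebraic over `ℚ`, for the group of the automorphisms of `K[x, y, z_1, ..., z_n]` over
`K[z_1, ..., z_n]` for such fields `K`, and for all their subgroups, for instance for the automorphism
group of `ℤ[z_1, ..., z_n][x, y]` over `ℤ[z_1, ..., z_n]`. These groups are not finitely generated and not linear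
over any field (Cornulier), contain solvable groups which are not virtually nilpotent and
nonabelian free groups, and satisfy no finiteness conditions.

Outline of the proof. The group generated by the affine and the triangular maps with coefficients in a
finitely generated subring `S` of `R` acts on the polynomial curves in the plane, and the degrees of curves
show that its coset graph is a tree (the decomposition as an amalgamated product is classical). An element that fixes a path of length eight is determined by a
root of unity in `S`: on each side of an inner vertex of affine type the path gives a relation `α = δ^d`,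
`d ≥ 2`, between the two eigenvalues of the linear part, so that `δ^(d d' - 1) = 1`, and for `δ = 1` the element
is trivial. The finitely generated domain `S` has only finitely many roots of unity. So the action is
acylindrical, the bound depending on `S`. The stabilizers of the vertices are extensions of metabelian
groups by abelian groups, or conjugate to affine groups. In (3) let `z` be tame over `F` and let `g` preserve `A[x, y]`, such that `z⁻¹ g z` is affine. By
comparison of the values of `z⁻¹ g z` at three points of `z⁻¹(A²)` in general position the linear part of
`z⁻¹ g z` has a denominator which only depends on `z`. In (5) such a group of linear parts acts on the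
Bruhat-Tits tree of the place at infinity (`MP_5d3e93_al.DegreeTwoLinearGroups`), and the elements of
bounded degree are detected in `GL₂(A_f / m^k)` for large `k` and a maximal ideal `m` of `A_f`.
-/

set_option autoImplicit false

namespace Pool.Agent.Results.MP_5d3e93_al.PolynomialAutomorphisms

open Pool.Agent.Y110.FJ (ClosedE)
open Pool.Agent.N509.TX (AcylF)
open Pool.Agent.J6H75.BT (IsDegree)
open Pool.Agent.J6H47.TP (Aut2 IsAffine tame tameOver LatC)

/-- (1) arbitrary groups `G` of tame automorphisms -/
def Criterion (C : ∀ (G : Type) [Group G], Prop) : Prop :=
  ∀ (R G : Type) [CommRing R] [IsDomain R] [CharZero R] [Group G] (ρ : G →* Aut2 R),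
    Function.Injective ρ → (∀ g, ρ g ∈ tame R) →
    (∀ z ∈ tame R, ∀ K : Subgroup G, (∀ g ∈ K, IsAffine (z⁻¹ * ρ g * z)) → C K) → C G

/-- (2) tame automorphism groups -/
def TameGroups (C : ∀ (G : Type) [Group G], Prop) : Prop :=
  ∀ (R : Type) [CommRing R] [IsDomain R] [CharZero R], C (tame R) ↔ C (GL (Fin 2) R)

/-- (3) automorphisms which are tame over the field of fractions -/
def Domains (C : ∀ (G : Type) [Group G], Prop) : Prop :=
  ∀ (A : Type) [CommRing A] [IsDomain A] [CharZero A], LatC C A → C (tameOver A)

/-- (4) principal ideal domains -/
def PrincipalIdealDomains (C : ∀ (G : Type) [Group G], Prop) : Prop :=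
  ∀ (A : Type) [CommRing A] [IsDomain A] [CharZero A] [IsPrincipalIdealRing A],
    C (tameOver A) ↔ C (GL (Fin 2) A)

/-- (5) finitely generated algebras -/
def FinitelyGeneratedAlgebras (C : ∀ (G : Type) [Group G], Prop) : Prop :=
  ∀ (K A : Type) [Field K] [CommRing A] [IsDomain A] [CharZero A] [Algebra K A]
    [Algebra.FiniteType K A] (deg : A → ℕ), (∀ n : ℕ, C (GL (Fin n) K)) → IsDegree deg →
    (∀ n : ℕ, ∃ W : Submodule K A, FiniteDimensional K W ∧ ∀ a, deg a ≤ n → a ∈ W) →
    C (tameOver A)

/-- (6) polynomial rings over fields -/
def PolynomialRings (C : ∀ (G : Type) [Group G], Prop) : Prop :=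
  ∀ (K : Type) [Field K] [CharZero K] (n : ℕ), (∀ m : ℕ, C (GL (Fin m) K)) →
    C (tameOver (MvPolynomial (Fin n) K))

/-- (7) if all automorphisms over the field of fractions are tame (the theorem of Jung and van der
Kulk), then `tameOver A` is the group of all automorphisms -/
def AllAutomorphisms : Prop :=
  ∀ (A : Type) [CommRing A] [IsDomain A], tame A ≤ tameOver A ∧
    (tame (FractionRing A) = ⊤ → tameOver A = ⊤)

/-- **Automorphism groups of polynomial rings in two variables.** -/
theorem result (C : ∀ (G : Type) [Group G], Prop) (hC : ClosedE C)
    (hM : ∀ (G : Type) [Group G], derivedSeries G 2 = ⊥ → C G) (hA : AcylF C) :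
    Criterion C ∧ TameGroups C ∧ Domains C ∧ PrincipalIdealDomains C ∧
      FinitelyGeneratedAlgebras C ∧ PolynomialRings C ∧ AllAutomorphisms := by
  refine ⟨?_, ?_, ?_, ?_, ?_, ?_, ?_⟩
  · intro R G _ _ _ _ ρ hρ ht hv
    exact Pool.Agent.J6H47.TP.C_crit hC hM hA G ρ hρ ht hv
  · intro R _ _ _
    exact ⟨Pool.Agent.J6H47.TP.C_of_tame hC, Pool.Agent.J6H47.TP.C_tame hC hM hA⟩
  · intro A _ _ _ h
    exact Pool.Agent.J6H47.TP.C_tameOver hC hM hA h
  · intro A _ _ _ _
    exact ⟨Pool.Agent.J6H47.TP.C_of_tameOver hC, fun h =>
      Pool.Agent.J6H47.TP.C_tameOver hC hM hA (Pool.Agent.J6H47.TP.latC_pid hC h)⟩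
  · intro K A _ _ _ _ _ _ deg hK hdeg hfin
    exact Pool.Agent.J6H47.TP.C_tameOver hC hM hA fun f hf L hL =>
      Pool.Agent.J6H47.TP.C_lattice (K := K) hC hK hdeg hfin f hf L hL
  · intro K _ _ n hK
    exact Pool.Agent.J6H47.TP.C_tameOver hC hM hA (Pool.Agent.J6H47.TP.latC_mv hC K hK n)
  · intro A _ _
    refine ⟨Pool.Agent.J6H47.TP.tame_le_tameOver, fun h => ?_⟩
    unfold tameOver
    rw [h, Subgroup.comap_top]

end Pool.Agent.Results.MP_5d3e93_al.PolynomialAutomorphisms
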