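import Pool.Agent.J6H95.FJ.Exa

/-!
# Classes of Farrell-Jones groups which are closed under splittings over virtually cyclic groups

`C` is any class of groups with the closure properties `ClosedE C` which contains the metabelian groups
and satisfies `AcylF C`: a finitely generated group that acts on a tree without inversions, such that
for some `k` and `n` the pointwise stabilizers of the paths of length at least `k` have at most `n`
elements, is in `C` if the vertex stabilizers are in `C`. All this is known for the class of the groups
that satisfy the Farrell-Jones conjecture with coefficients in additive categories and finite wreath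
products (`AcylF` is a theorem of Knopf). As far as I know it is open whether the class of Farrell-Jones
groups is closed under amalgamated products and HNN extensions over cyclic groups. Here we define two
large classes of Farrell-Jones groups which have such properties.

* `Quo C G`: `G` is in `C`, and for all `z` in `G` of infinite order the quotient `N(z) / ⟨z⟩` is in `C`, where
  `N(z)` is the group of all `g` with `g z g⁻¹ = z` or `g z g⁻¹ = z⁻¹`, the normalizer of `⟨z⟩`.
* `Bald G`: `G` is balanced, for all `e` in `G` of infinite order `g e^a g⁻¹ = e^b` with `a ≠ 0` is only
  possible for `b = ±a`.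
* `Det G`: for all `z` in `G` of infinite order no `z^j`, `j > 0`, is in the commutator subgroup of the
  centralizer of `z`. (For instance translation lengths are homomorphisms on centralizers.)

(1) The classes `Quo C ∧ Bald` and `Quo C ∧ Det` are closed under subgroups, overgroups of finite index and
directed unions, and their torsion-free groups are closed under direct products.

(2) Let `G` act on a tree with virtually cyclic edge stabilizers and vertex stabilizers in `Quo C ∧ Bald`.
If `G` is generated by the vertex stabilizers, then `G` is in `Quo C ∧ Bald`. So this class is closed under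
finite and infinite iterated amalgamated products over virtually cyclic groups. The same holds for all
actions without inversions such that the edge stabilizers are balanced in `G`.

(3) Let `G` act without inversions on a tree with vertex stabilizers in `Quo C ∧ Det`, such that each edge
stabilizer is finite, or cyclic, or virtually cyclic and balanced in `G`. Then `G` is in `Quo C ∧ Det`. So this
class is closed under all HNN extensions and amalgamated products over cyclic groups, and contains
the fundamental groups of all graphs of groups with vertex groups in the class and cyclic edge groups,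
without any condition on the inclusions; relations like `t e^2 t⁻¹ = e^3` are allowed.

(4) For actions with vertex stabilizers in `Quo C` there is a common generalization.

(5) A group in `C` in which the commensurators of the infinite cyclic subgroups are virtually cyclic is in
`Quo C`, `Bald` and `Det`; these are for instance all hyperbolic groups. Abelian groups have all three
properties. Groups which are linear over a field `k` such that all `GL_m(k)` are in `C` are in `Quo C`, and
all subgroups of `GL_n(ℤ)` are in `Quo C ∧ Bald` if all `GL_m(ℚ)` are in `C` (a theorem of Rüping). Groups which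
act geometrically on CAT(0) spaces are in `Quo C ∧ Bald ∧ Det` (this is not formalized here).

So for instance every group which is obtained from arithmetic groups (or arbitrary groups of integral
matrices) and hyperbolic groups by amalgamated products over virtually cyclic groups, directed unions
and passage to subgroups and overgroups of finite index, in any order and any number of times,
satisfies the Farrell-Jones conjecture. No such group needs to be linear, hyperbolic or CAT(0), or to act
acylindrically on a tree.

Outline of the proof. That `G` is in `C` is shown as in `MP_e40716_gt.LinearCyclicSplittings` by the tree of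
cylinders and passage to the quotients by central cyclic groups. Let `z` be in `G`, of infinite order. If
`z` fixes a vertex, then `N(z) / ⟨z⟩` acts on the tree of the fixed points of `z` with finite edge stabilizers
and with vertex stabilizers in `C`. Otherwise `N(z)` acts on the axis of `z`, and `N(z) / ⟨z⟩` has a subgroup of
finite index which fixes a vertex. Compatible characters of the centralizers of `z` in the vertex
stabilizers, with the value `1` at `z`, are glued by a twisted holonomy along the paths of the tree;
this shows that `Det` is inherited. If `G` is generated by vertex stabilizers, the modular homomorphism of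
the commensurator of `⟨e⟩` is the holonomy of an invariant labelling of the edges of the whole tree, and
therefore trivial up to sign. The groups `GL_n(ℤ)` are balanced because for each prime `p` the orders of
an element of infinite order in the groups `GL_n(ℤ / p^k)` are divisible by arbitrarily high powers of `p`.
-/

set_option autoImplicit false

namespace Pool.Agent.Results.MP_5d3e93_al.VirtuallyCyclicSplittings

open Subgroup
open Subgroup.Commensurable (commensurator)
open Pool.Agent.Y110.FJ (ClosedE)
open Pool.Agent.N509.TX (AcylF)
open Pool.Agent.N431.CE (Es Cn)
open Pool.Agent.J6H95.FJ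

theorem result (C : ∀ (G : Type) [Group G], Prop) (hC : ClosedE C)
    (hM : ∀ (G : Type) [Group G], derivedSeries G 2 = ⊥ → C G) (hA : AcylF C) :
    -- (1) closure properties
    (Stable (fun G _ => Quo C G ∧ Bald G) ∧ Stable (fun G _ => Quo C G ∧ Det G) ∧
      ∀ (G H : Type) [Group G] [Group H], TorFree G → TorFree H → TorFree (G × H) ∧
        (Quo C G → Quo C H → Quo C (G × H)) ∧ (Bald G → Bald H → Bald (G × H)) ∧
        (Det G → Det H → Det (G × H))) ∧
    (∀ (G V : Type) [Group G] [MulAction G V] (T : SimpleGraph V), T.IsTree →
      (∀ (g : G) (u v : V), T.Adj u v → T.Adj (g • u) (g • v)) →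
      (∀ v u : V, T.Adj v u → VC (Es G v u)) → (∀ v : V, Quo C (MulAction.stabilizer G v)) →
      -- (2) balanced vertex stabilizers
      ((∀ v : V, Bald (MulAction.stabilizer G v)) → (⨆ v : V, MulAction.stabilizer G v) = ⊤ →
        Quo C G ∧ Bald G) ∧
      ((∀ (g : G) (u v : V), T.Adj u v → ¬ (g • u = v ∧ g • v = u)) →
        ((∀ v : V, Bald (MulAction.stabilizer G v)) →
          (∀ v u : V, T.Adj v u → ∀ x ∈ Es G v u, InfOrd x → Balanced x) → Quo C G ∧ Bald G) ∧
        -- (3) vertex stabilizers with `Det`
        ((∀ v : V, Det (MulAction.stabilizer G v)) →
          (∀ v u : V, T.Adj v u → Finite (Es G v u) ∨ BalVC (G := G) v u ∨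
            ∃ e : G, Es G v u = zpowers e) → Quo C G ∧ Det G) ∧
        -- (4) the general case
        ((∀ v u : V, T.Adj v u → Finite (Es G v u) ∨ BalVC (G := G) v u ∨
          ∃ e : G, Es G v u = zpowers e ∧
            ∀ N j : ℕ, N ≠ 0 → j ≠ 0 → e ^ j ∉ ⁅Cn (e ^ N) v, Cn (e ^ N) v⁆) → Quo C G))) ∧
    -- (5) examples
    (∀ (G : Type) [Group G], C G → (∀ z : G, InfOrd z → VC (commensurator (zpowers z))) →
      Quo C G ∧ Det G ∧ Bald G) ∧
    (∀ (A : Type) [CommGroup A], Quo C A ∧ Det A ∧ Bald A) ∧
    (∀ (k : Type) [Field k], (∀ m : ℕ, C (GL (Fin m) k)) → ∀ (G : Type) [Group G] (d : ℕ)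
      (ρ : G →* GL (Fin d) k), Function.Injective ρ → Quo C G) ∧
    (∀ n : ℕ, Bald (GL (Fin n) ℤ)) ∧
    ((∀ m : ℕ, C (GL (Fin m) ℚ)) → ∀ n : ℕ, Quo C (GL (Fin n) ℤ)) := by
  refine ⟨⟨(stable_quo hC).and stable_bald, (stable_quo hC).and stable_det, ?_⟩, ?_, ?_, ?_, ?_, ?_,
    ?_⟩
  · intro G H _ _ tG tH
    exact ⟨tor_prod tG tH, quo_prod hC hM tG tH, bald_prod, det_prod⟩
  · intro G V _ _ T hT hact hVC hV
    refine ⟨fun hB hgen => tree_quo_bal hC hM hA hT hact hVC (fun v => ⟨hV v, hB v⟩) hgen,
      fun hinv => ⟨fun hB hE => ?_, fun hD hE => tree_quo_det hC hM hA hT hact hinv hE
        fun v => ⟨hV v, hD v⟩, fun hE => tree_quo hC hM hA hT hact hinv hV hE⟩⟩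
    refine ⟨tree_quo hC hM hA hT hact hinv hV fun v u huv => ?_, tree_bal' hT hact hinv hB hE⟩
    by_cases h : Infinite (Es G v u)
    · obtain ⟨x, hx, hxi⟩ := (hVC v u huv).exists_inf h
      exact Or.inr (Or.inl ⟨hVC v u huv, x, hx, hxi, hE v u huv x hx hxi⟩)
    · exact Or.inl (not_infinite_iff_finite.1 h)
  · intro G _ hG h
    exact vc_comm hC hG h
  · intro A _
    exact abelian hM A
  · intro k _ hk G _ d ρ hρ
    exact quo_lin hC hM hk ρ hρ
  · exact bald_int
  · exact int_quo hC hM

end Pool.Agent.Results.MP_5d3e93_al.VirtuallyCyclicSplittings
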